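import Pool.Agent.R887.TrvX

/-!
Towers of finite multi-valued maps of pairs: the log canonical divisors are numerically trivial or
not pseudo-effective.
-/

set_option autoImplicit false

open FF Pool.Agent.W602.GT Pool.Agent.Y172 Pool.Agent.R887

/-- Let `(X k, Δ k)`, `k = 0, 1, 2, ...`, be pairs of dimension `n ≥ 1`: normal complex projective
varieties, with generic points `y k`, and `ℝ`-divisors, for instance klt pairs. For all `k` let
`X (k + 1) ← X'' k → X k` be a multi-valued map, where the projection `p k` to `X (k + 1)` is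
generically finite and `f k : X'' k ⇢ X k` is dominant, such that the prime divisors over `X'' k`
which `f k` maps to prime divisors of `X k` are mapped to prime divisors of `X (k + 1)` by `p k`,
with `(f k)^* (K + Δ k) ≤ (p k)^* (K + Δ (k + 1))` along them. Let the intersection number of `n - 1`
pull backs by `f k` of hyperplane sections of `X k` and one pull back by `p k` of a hyperplane
section of `X (k + 1)` be at most `c k deg (f k)`, and let `τ k ≥ 0` be such that
`τ k H ± (K + Δ k)` are pseudo-effective, `H` a hyperplane section of `X k`. Suppose that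
`c 0 c 1 ... c (k - 1) τ k` tends to zero for `k → ∞`.

(2) All `-(K + Δ k)` are pseudo-effective.

(3) If `K + Δ k` is pseudo-effective, for instance nef, then it is numerically trivial, and the map
from `X (k + 1)` to `X k` is crepant: `(f k)^* (K + Δ k) = (p k)^* (K + Δ (k + 1))`.

(4) If all these maps are crepant, all `K + Δ k` are numerically trivial, in particular nef.

(5) A section of `m (K + Δ k)`, `m ≥ 1`, has no zeros: if `m (K + Δ k)` is effective, it is trivial.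

By (1) all pairs have finite numbers `τ`. Thus the condition on `τ` holds if the pairs `(X k, Δ k)`
are taken from a finite list and the products `c 0 c 1 ... c (k - 1)` tend to zero. -/
theorem Pool.Agent.Results.MP_e23cd6_ag.CrepantTowers.result :
    (∀ {K : Type} [Field K] [Algebra ℂ K] {N n : ℕ} {y : Fin (N + 1) → K},
      NormalModel y → Algebra.trdeg ℂ K = n → ∀ {Δ : Place ℂ K → ℝ},
      {P | IsPrimeDivisor y P ∧ Δ P ≠ 0}.Finite →
      ∃ τ : ℝ, 0 ≤ τ ∧ ThresholdLe y n Δ τ ∧ LowerThresholdLe y n Δ τ) ∧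
    ∀ {K L : ℕ → Type} [∀ k, Field (K k)] [∀ k, Algebra ℂ (K k)]
      [∀ k, Field (L k)] [∀ k, Algebra ℂ (L k)] {N : ℕ → ℕ} {y : ∀ k, Fin (N k + 1) → K k} {n : ℕ},
      (∀ k, NormalModel (y k)) → (∀ k, Algebra.trdeg ℂ (K k) = n) → 0 < n →
      ∀ {Δ : ∀ k, Place ℂ (K k) → ℝ} (φ : ∀ k, K k →ₐ[ℂ] L k) (ψ : ∀ k, K (k + 1) →ₐ[ℂ] L k),
      (∀ k, FiniteDimensional (ψ k).fieldRange (L k)) →
      (∀ k, FiniteLogPullBackLe (φ k) (ψ k) (y k) (Δ k) (y (k + 1)) (Δ (k + 1))) →
      ∀ {c τ : ℕ → ℝ}, (∀ k, 0 < c k) →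
      (∀ k, MultiDegreeLe (φ k) (ψ k) (y k) (y (k + 1)) (n - 1) 1 (c k)) →
      (∀ k, 0 ≤ τ k) → (∀ k, ThresholdLe (y k) n (Δ k) (τ k)) →
      (∀ k, LowerThresholdLe (y k) n (Δ k) (τ k)) →
      Filter.Tendsto (fun s => (∏ l ∈ Finset.range s, c l) * τ s) Filter.atTop (nhds 0) →
      (∀ k, AntiPseudoEffectiveR (y k) n (Δ k)) ∧
      (∀ k, PseudoEffectiveR (y k) n (Δ k) → NumTrivialR (y k) n (Δ k) ∧
        CrepantOver (φ k) (ψ k) (y k) (Δ k) (Δ (k + 1))) ∧
      ((∀ k, CrepantOver (φ k) (ψ k) (y k) (Δ k) (Δ (k + 1))) →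
        ∀ k, NumTrivialR (y k) n (Δ k)) ∧
      ∀ k (m : ℕ) (η : (Fin n → Derivation ℂ (K k) (K k)) → K k), 1 ≤ m → IsPluri m η →
        (∀ P, IsPrimeDivisor (y k) P → ∃ z : ℚ, OrdEq P η z ∧ -(m * Δ k P) ≤ z) →
        ∀ P, IsPrimeDivisor (y k) P → ∀ z : ℚ, OrdEq P η z → (z : ℝ) = -(m * Δ k P) := by
  refine ⟨fun {K} _ _ {N n y} hy hn {Δ} hΔ => ?_, ?_⟩
  · obtain ⟨τ, hτ0, hτ⟩ := exists_threshold hy hn hΔ
    obtain ⟨τ', hτ0', hτ'⟩ := exists_lowerThreshold hy hn hΔ
    exact ⟨max τ τ', hτ0.trans (le_max_left _ _), hτ.mono (le_max_left _ _),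
      hτ'.mono (le_max_right _ _)⟩
  · intro K L _ _ _ _ N y n hy hn hn0 Δ φ ψ hψ hlog c τ hc0 hc hτ0 hτ hτ' hlim
    obtain ⟨h1, h2, h3⟩ := tower_main hy hn hn0 φ ψ hψ hlog hc0 hc hτ0 hτ hτ' hlim
    exact ⟨h1, h2, h3, fun k m η hm hη hsec =>
      no_zeros_of_anti (hy k) (hn k) hn0 (h1 k) hm hη hsec⟩
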