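import Pool.Agent.R887.CorD
import Pool.Agent.R887.NefP

/-!
Abundance for klt pairs with nef log canonical divisor and multi-valued maps of large degree from a
fixed variety.
-/

set_option autoImplicit false

open FF Pool.Agent.W602.GT Pool.Agent.Y172 Pool.Agent.R887

/-- Let `(X, Δ)` be a projective log canonical (for instance klt) pair of dimension `n ≥ 1`, with
generic point `y`, `Δ` being a `ℚ`-divisor, such that `K_X + Δ` is nef, and let `η ≠ 0` be a section
of `m (K_X + Δ)`, `m ≥ 1`. Let `X'` be a normal projective variety of dimension `n`, with generic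
point `y'`, and `S` a finite set of prime divisors of `X'`. Suppose that for all `ε > 0` there is a
multi-valued rational map `X' ← X'' → X`, that is a variety `X''` with a generically finite rational
map `p` to `X'`, unramified over the prime divisors of `X'` which are not in `S`, and a dominant
rational map `f` to `X`, with `f^* (K_X + Δ) ≤ K_X''` over the prime divisors of `X'` which are not
in `S`, such that the intersection number of `n - 1` pull backs by `f` of hyperplane sections of `X`
and one pull back by `p` of a hyperplane section of `X'` is at most `ε deg f`. Then the order of `η`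
along every prime divisor `P` of `X` is `- m Δ P`: the divisor `m (K_X + Δ)` is integral and
linearly trivial, so `K_X + Δ` is semiample. -/
theorem Pool.Agent.Results.MP_e23cd6_ag.MultivaluedNefPairs.result
    {K K' : Type} [Field K] [Algebra ℂ K] [Field K'] [Algebra ℂ K'] {N N' n : ℕ}
    {y : Fin (N + 1) → K} {y' : Fin (N' + 1) → K'} (hy : NormalModel y) (hy' : NormalModel y')
    (hn : Algebra.trdeg ℂ K = n) (hn' : Algebra.trdeg ℂ K' = n) (hn0 : 0 < n)
    {Δ : Place ℂ K → ℚ} (hLC : LogCanonical y n Δ) (hnef : LogNef y n Δ) {m : ℕ} (hm : 1 ≤ m)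
    {η : (Fin n → Derivation ℂ K K) → K} (hη : IsSection y n m (m • Δ) η) (hη0 : η ≠ 0)
    {S : Set (Place ℂ K')} (hS : S.Finite)
    (h : ∀ ε : ℝ, 0 < ε → ∃ (L : Type) (_ : Field L) (_ : Algebra ℂ L) (φ : K →ₐ[ℂ] L)
      (ψ : K' →ₐ[ℂ] L), FiniteDimensional ψ.fieldRange L ∧ UnramifiedOutside ψ y' S ∧
        MultiPullBackLe φ ψ y n Δ y' S ∧ MultiDegreeLe φ ψ y y' (n - 1) 1 ε) :
    ∀ P, IsPrimeDivisor y P → OrdEq P η (-(m * Δ P)) :=
  nef_trivialP hy hn hn0 (numdim2 hy hy' hn hn' hn0 hLC (j := 1) hn0 hS h) hnef hm hη hη0
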