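import Pool.Agent.R887.GapD

/-!
Abundance for the log canonical (for instance klt) pairs with nef `K_X + Δ` which are dominated by
one multi-valued rational map of large degree from a fixed variety.
-/

set_option autoImplicit false

open FF Pool.Agent.W602.GT Pool.Agent.Y172 Pool.Agent.R887

/-- Let `X'` be a normal projective variety of dimension `n ≥ 1`, with generic point `y'`, and `S` a
finite set of prime divisors of `X'`. There is a constant `C`, which depends only on `X'` and `S`,
such that the following holds for all log canonical (for instance klt) pairs `(X, Δ)` of dimension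
`n`, with generic point `y` and a `ℚ`-divisor `Δ`, such that `K_X + Δ` is nef and `r (K_X + Δ)` is
Cartier, `r ≥ 1`.

Let `X' ← X'' → X` be a multi-valued rational map: a variety `X''` with a generically finite
rational map `p` to `X'`, unramified over the prime divisors of `X'` which are not in `S`, and a
dominant rational map `f` to `X` such that `f^* (K_X + Δ) ≤ K_X''` over these prime divisors. Suppose
that the intersection number `(f^* H)^(n-1) (p^* H')`, `H` and `H'` being hyperplane sections of `X`
and `X'`, is at most `c deg f`, where `c C r < 1`.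

Then the numerical dimension of `K_X + Δ` is zero, that is, `K_X + Δ` is numerically trivial, and all
sections `η ≠ 0` of `m (K_X + Δ)`, `m ≥ 1`, have no zeros, so that `m (K_X + Δ)` is trivial if there
is one. -/
theorem Pool.Agent.Results.MP_e23cd6_ag.OneMapNefPairs.result
    {K' : Type} [Field K'] [Algebra ℂ K'] {N' n : ℕ} {y' : Fin (N' + 1) → K'}
    (hy' : NormalModel y') (hn' : Algebra.trdeg ℂ K' = n) (hn0 : 0 < n) {S : Set (Place ℂ K')}
    (hS : S.Finite) :
    ∃ C : ℕ, 0 < C ∧ ∀ (K : Type) [Field K] [Algebra ℂ K] (N : ℕ)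
      (y : Fin (N + 1) → K) (Δ : Place ℂ K → ℚ) (r : ℕ), NormalModel y →
      Algebra.trdeg ℂ K = n → LogCanonical y n Δ → LogNef y n Δ → 1 ≤ r → CartierIndex y n Δ r →
      ∀ (L : Type) [Field L] [Algebra ℂ L] (φ : K →ₐ[ℂ] L) (ψ : K' →ₐ[ℂ] L),
        FiniteDimensional ψ.fieldRange L → UnramifiedOutside ψ y' S →
        MultiPullBackLe φ ψ y n Δ y' S → ∀ c : ℝ,
        MultiDegreeLe φ ψ y y' (n - 1) 1 c → c * (C * r) < 1 →
        NumDimLt y n Δ 1 ∧ ∀ m : ℕ, 1 ≤ m → ∀ η : (Fin n → Derivation ℂ K K) → K,
          IsSection y n m (m • Δ) η → η ≠ 0 → ∀ P, IsPrimeDivisor y P →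
            OrdEq P η (-(m * Δ P)) := by
  obtain ⟨C, hC, h⟩ := gap_one_map hy' hn' hn0 hS
  refine ⟨C, hC, fun K _ _ N y Δ r hy hn hlc hnef hr hcar L _ _ φ ψ hψ hun hpb c hc hlt => ?_⟩
  have h1 := (h hy hn hlc φ ψ hψ hun hpb).2 r c hr hcar hnef hc hlt
  exact ⟨h1, fun m hm η hη hη0 => nef_trivialP hy hn hn0 h1 hnef hm hη hη0⟩
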